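import Pool.Agent.Y7.LN.Stm
import Pool.Agent.Y344.EJ.Limt

set_option autoImplicit false

/-! # The modes are Lipschitz continuous up to the blow-up time (helper of the project LN) -/

open Set Filter Topology MeasureTheory Metric

namespace Pool.Agent.Y331.LN

open Pool.Agent.Y5 (E3)
open Pool.Agent.Y5.D (Ix qd vf3 Init)
open Pool.Agent.Y6.N (lin TSol XSol Rot)
open Pool.Agent.Y6.K (Kz lv)
open Pool.Agent.Y303.SK
open Pool.Agent.Y344.EJ.Limt (Kz_le z_le lin_le qd_le)

theorem t_LIPT : Pool.Agent.Y7.LN.S_LIPT := by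
  intro J g o σ τ L C ℓ ρ B R E D c S T z K Rt hT hder hen hsum i
  obtain ⟨X, hX⟩ := Kz_le (S := S) Rt i
  have hX0 : 0 ≤ X := le_trans (abs_nonneg _) (hX 0 fun a => by simp)
  have hM0 : 0 ≤ X + |E i| + |R i| := by positivity
  have hbd : ∀ t ∈ Ico 0 T, ‖Kz S o σ τ (fun a => z a t) i - lin D (fun a => z a t) i +
      qd c (fun a => z a t) i‖ ≤ X + |E i| + |R i| := by
    intro t ht
    obtain ⟨h1, h2⟩ := hen t ht
    have k1 := hX (fun a => z a t) (fun a => z_le (z := fun a => z a t) h1 h2 a)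
    have k2 := lin_le K (z := fun a => z a t) h1 h2 i
    have k3 := qd_le K (z := fun a => z a t) h1 h2 (hsum t ht) i
    rw [Real.norm_eq_abs]
    calc |Kz S o σ τ (fun a => z a t) i - lin D (fun a => z a t) i + qd c (fun a => z a t) i|
        ≤ |Kz S o σ τ (fun a => z a t) i - lin D (fun a => z a t) i| +
          |qd c (fun a => z a t) i| := abs_add_le _ _
      _ ≤ |Kz S o σ τ (fun a => z a t) i| + |lin D (fun a => z a t) i| +
          |qd c (fun a => z a t) i| := by
          gcongr
          exact abs_sub _ _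
      _ ≤ X + |E i| + |R i| := by gcongr
  refine ⟨X + |E i| + |R i|, hM0, ?_⟩
  intro s hs t ht
  have h := Convex.norm_image_sub_le_of_norm_hasDerivWithin_le (f := z i)
    (fun t ht => hder i t ht) hbd (convex_Ico 0 T) hs ht
  rw [Real.norm_eq_abs, Real.norm_eq_abs] at h
  exact h

end Pool.Agent.Y331.LN
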